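import Mathlib
import Pool.Agent.Helper22.RZ.Window
import Pool.Agent.Helper60.GP.Defs

/-!
# GP-COUNT: the threshold set consisting of squarefree numbers

Helper22's `count_union` (and helper53's construction behind it) with squarefreeness recorded.
-/

open Filter
open scoped Real

namespace Pool.Agent.Helper60.GP

open Pool.Agent.Helper22.GC Pool.Agent.Helper53.OM Pool.Agent.Helper53.OM.Cnt
open Pool.Agent.Helper22.RZ

noncomputable section

lemma sqf_prod {S : Finset ℕ} (hS : ∀ q ∈ S, q.Prime) : Squarefree (∏ q ∈ S, q) := by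
  classical
  induction S using Finset.induction_on with
  | empty => rw [Finset.prod_empty]; exact squarefree_one
  | insert a S ha ih =>
    rw [Finset.prod_insert ha]
    have hSp : ∀ q ∈ S, q.Prime := fun q hq => hS q (Finset.mem_insert_of_mem hq)
    have hap : a.Prime := hS a (Finset.mem_insert_self a S)
    have hcop : Nat.Coprime a (∏ q ∈ S, q) := by
      apply Nat.Coprime.prod_right
      intro q hq
      exact (Nat.coprime_primes hap (hSp q hq)).mpr fun h => ha (h ▸ hq)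
    exact (Nat.squarefree_mul hcop).mpr ⟨hap.squarefree, ih hSp⟩

lemma build_sqf {N k : ℕ} {z c : ℝ} (hc : 0 ≤ c) (hN : 2 ≤ N)
    (hz : z < √N / 2)
    (hQ : ∀ y : ℝ, √N ≤ y → c * y / Real.log y ≤ (Q1 y).card) :
    ∃ M : Finset ℕ, M ⊆ Finset.Icc 1 N ∧
      (∀ m ∈ M, 2 ^ (k + 1) ≤ gr m ∧ m.primeFactors.card = k + 1 ∧ Squarefree m) ∧
      c * (N / Real.log N) * ∑ S ∈ NN (P1 z) k (√N), 1 / ((∏ p ∈ S, p : ℕ) : ℝ) ≤ M.card := by
  classical
  have hN0 : (0 : ℝ) < N := by positivity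
  have hN1 : (1 : ℝ) < N := by exact_mod_cast hN
  have hsq : √(N : ℝ) * √N = N := Real.mul_self_sqrt hN0.le
  have hsq1 : 1 < √(N : ℝ) := by
    rw [Real.lt_sqrt (by norm_num)]
    linarith
  set T : Finset (Σ _ : Finset ℕ, ℕ) :=
    (NN (P1 z) k (√N)).sigma (fun S => Q1 (N / ((∏ p ∈ S, p : ℕ) : ℝ))) with hT
  -- properties of the elements
  have hprop : ∀ S ∈ NN (P1 z) k (√N), (∀ q ∈ S, q.Prime ∧ q % 4 = 1 ∧ (q : ℝ) ≤ z) ∧
      S.card = k ∧ 0 < ∏ p ∈ S, p ∧ √(N : ℝ) ≤ N / ((∏ p ∈ S, p : ℕ) : ℝ) ∧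
      (N : ℝ) / ((∏ p ∈ S, p : ℕ) : ℝ) ≤ N := by
    intro S hS
    unfold NN at hS
    rw [Finset.mem_filter, Finset.mem_powersetCard] at hS
    obtain ⟨⟨hS1, hS2⟩, hS3⟩ := hS
    have ha : ∀ q ∈ S, q.Prime ∧ q % 4 = 1 ∧ (q : ℝ) ≤ z := by
      intro q hq
      obtain ⟨⟨hq1, hq2⟩, hq3, hq4⟩ := mem_P1.1 (hS1 hq)
      refine ⟨hq3, hq4, ?_⟩
      have hz0 : 0 ≤ z := by
        by_contra hneg
        rw [Nat.floor_of_nonpos (by linarith)] at hq2
        omega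
      exact (Nat.le_floor_iff hz0).1 hq2
    have hb : 0 < ∏ p ∈ S, p := Finset.prod_pos fun q hq => (ha q hq).1.pos
    have hb' : (0 : ℝ) < ((∏ p ∈ S, p : ℕ) : ℝ) := by exact_mod_cast hb
    refine ⟨ha, hS2, hb, ?_, ?_⟩
    · rw [le_div_iff₀ hb']
      calc √(N : ℝ) * ((∏ p ∈ S, p : ℕ) : ℝ) ≤ √N * √N :=
            mul_le_mul_of_nonneg_left hS3 (Real.sqrt_nonneg _)
        _ = N := hsq
    · rw [div_le_iff₀ hb']
      have : (1 : ℝ) ≤ ((∏ p ∈ S, p : ℕ) : ℝ) := by exact_mod_cast hb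
      nlinarith
  have hQprop : ∀ y : ℝ, √(N : ℝ) ≤ y → ∀ p ∈ Q1 y, p.Prime ∧ p % 4 = 1 ∧ (p : ℝ) ≤ y ∧
      z < p := by
    intro y hy p hp
    unfold Q1 at hp
    rw [Finset.mem_filter] at hp
    obtain ⟨hp1, hp2⟩ := hp
    obtain ⟨⟨hq1, hq2⟩, hq3, hq4⟩ := mem_P1.1 hp1
    refine ⟨hq3, hq4, (Nat.le_floor_iff (by linarith)).1 hq2, ?_⟩
    linarith
  -- injectivity
  have hinj : Set.InjOn (fun a : (Σ _ : Finset ℕ, ℕ) => (∏ p ∈ a.1, p) * a.2) T := by
    rintro ⟨S, p⟩ hSp ⟨S', p'⟩ hSp' heq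
    rw [Finset.mem_coe, hT, Finset.mem_sigma] at hSp hSp'
    obtain ⟨hS, hp⟩ := hSp
    obtain ⟨hS', hp'⟩ := hSp'
    simp only at hS hp hS' hp' heq
    obtain ⟨a1, a2, a3, a4, a5⟩ := hprop S hS
    obtain ⟨b1, b2, b3, b4, b5⟩ := hprop S' hS'
    obtain ⟨c1, c2, c3, c4⟩ := hQprop _ a4 p hp
    obtain ⟨d1, d2, d3, d4⟩ := hQprop _ b4 p' hp'
    have hpp : p = p' := by
      by_contra hne
      have h1 : p ∣ (∏ q ∈ S', q) * p' := ⟨∏ q ∈ S, q, by rw [← heq]; ring⟩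
      rcases (Nat.Prime.dvd_mul c1).1 h1 with h2 | h2
      · by_cases h3 : p ∈ S'
        · have := (b1 p h3).2.2
          linarith
        · exact not_dvd_prod (fun q hq => (b1 q hq).1) c1 h3 h2
      · exact hne ((Nat.prime_dvd_prime_iff_eq c1 d1).1 h2)
    subst hpp
    have hprod : ∏ q ∈ S, q = ∏ q ∈ S', q := Nat.eq_of_mul_eq_mul_right c1.pos heq
    have hSS : S = S' := by
      have e1 := Nat.primeFactors_prod (fun q hq => (a1 q hq).1 : ∀ q ∈ S, q.Prime)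
      have e2 := Nat.primeFactors_prod (fun q hq => (b1 q hq).1 : ∀ q ∈ S', q.Prime)
      rw [← e1, ← e2, hprod]
    subst hSS
    rfl
  refine ⟨T.image (fun a => (∏ p ∈ a.1, p) * a.2), ?_, ?_, ?_⟩
  · intro m hm
    rw [Finset.mem_image] at hm
    obtain ⟨⟨S, p⟩, hSp, rfl⟩ := hm
    rw [hT, Finset.mem_sigma] at hSp
    obtain ⟨hS, hp⟩ := hSp
    simp only at hS hp
    obtain ⟨a1, a2, a3, a4, a5⟩ := hprop S hS
    obtain ⟨c1, c2, c3, c4⟩ := hQprop _ a4 p hp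
    rw [Finset.mem_Icc]
    simp only
    refine ⟨Nat.mul_pos a3 c1.pos, ?_⟩
    have ha3 : (0 : ℝ) < ((∏ p ∈ S, p : ℕ) : ℝ) := by exact_mod_cast a3
    rw [le_div_iff₀ ha3] at c3
    have : ((((∏ q ∈ S, q) * p : ℕ)) : ℝ) ≤ N := by
      rw [Nat.cast_mul, mul_comm]
      exact c3
    exact_mod_cast this
  · intro m hm
    rw [Finset.mem_image] at hm
    obtain ⟨⟨S, p⟩, hSp, rfl⟩ := hm
    rw [hT, Finset.mem_sigma] at hSp
    obtain ⟨hS, hp⟩ := hSp
    simp only at hS hp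
    obtain ⟨a1, a2, a3, a4, a5⟩ := hprop S hS
    obtain ⟨c1, c2, c3, c4⟩ := hQprop _ a4 p hp
    simp only
    have h1 : ¬ p ∣ ∏ q ∈ S, q := by
      apply not_dvd_prod (fun q hq => (a1 q hq).1) c1
      intro h
      have := (a1 p h).2.2
      linarith
    have h2 := gr_mul_prime a3 c1 c2 h1
    have h3 := gr_prod (S := S) (fun q hq => ⟨(a1 q hq).1, (a1 q hq).2.1⟩)
    rw [a2] at h3
    have hpS : p ∉ S := fun h => by
      have := (a1 p h).2.2
      linarith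
    have e1 : (∏ q ∈ S, q) * p = ∏ q ∈ insert p S, q := by
      rw [Finset.prod_insert hpS, mul_comm]
    have hpr : ∀ q ∈ insert p S, q.Prime := by
      intro q hq
      rw [Finset.mem_insert] at hq
      rcases hq with rfl | hq
      · exact c1
      · exact (a1 q hq).1
    refine ⟨?_, ?_, ?_⟩
    · calc 2 ^ (k + 1) = 2 * 2 ^ k := by ring
        _ ≤ 2 * gr (∏ q ∈ S, q) := by omega
        _ ≤ _ := h2
    · rw [e1, Nat.primeFactors_prod hpr, Finset.card_insert_of_notMem hpS, a2]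
    · rw [e1]
      exact sqf_prod hpr
  · rw [Finset.card_image_of_injOn hinj, hT, Finset.card_sigma, Finset.mul_sum, Nat.cast_sum]
    refine Finset.sum_le_sum fun S hS => ?_
    obtain ⟨a1, a2, a3, a4, a5⟩ := hprop S hS
    have ha3 : (0 : ℝ) < ((∏ p ∈ S, p : ℕ) : ℝ) := by exact_mod_cast a3
    have h1 := hQ _ a4
    have hy1 : 1 < (N : ℝ) / ((∏ p ∈ S, p : ℕ) : ℝ) := lt_of_lt_of_le hsq1 a4
    have hl1 : 0 < Real.log ((N : ℝ) / ((∏ p ∈ S, p : ℕ) : ℝ)) := Real.log_pos hy1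
    have hl2 : Real.log ((N : ℝ) / ((∏ p ∈ S, p : ℕ) : ℝ)) ≤ Real.log N :=
      Real.log_le_log (by linarith) a5
    refine le_trans ?_ h1
    have h2 : c * ((N : ℝ) / ((∏ p ∈ S, p : ℕ) : ℝ)) / Real.log N ≤
        c * ((N : ℝ) / ((∏ p ∈ S, p : ℕ) : ℝ)) /
          Real.log ((N : ℝ) / ((∏ p ∈ S, p : ℕ) : ℝ)) :=
      div_le_div_of_nonneg_left (by positivity) hl1 hl2
    refine le_trans (le_of_eq ?_) h2
    push_cast
    ring

/-- B2, from the three statements on primes -/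
theorem count_k_sqf
    (hM : ∃ C : ℝ, ∀ z : ℝ, 3 ≤ z →
      Real.log (Real.log z) / 2 - C ≤ ∑ p ∈ P1 z, (1 : ℝ) / p)
    (hL : ∃ C : ℝ, ∀ z : ℝ, 1 ≤ z → ∑ p ∈ P1 z, Real.log p / p ≤ Real.log z + C)
    (hP : ∃ c : ℝ, 0 < c ∧ ∀ᶠ y : ℝ in atTop,
      c * y / Real.log y ≤ ((P1 y).filter (fun p : ℕ => y / 2 < p)).card) :
    ∃ c : ℝ, 0 < c ∧ ∃ N₀ : ℕ, ∀ N : ℕ, N₀ ≤ N → ∀ k : ℕ, 1 ≤ k →
    (k : ℝ) ≤ 13 / 10 * Real.log (Real.log N) →
    ∃ M : Finset ℕ, M ⊆ Finset.Icc 1 N ∧ (∀ m ∈ M, 2 ^ k ≤ gr m ∧ m.primeFactors.card = k ∧ Squarefree m) ∧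
      c * (N / Real.log N) * ((Real.log (Real.log N) / 2) ^ (k - 1) / (k - 1).factorial) ≤
        M.card := by
  obtain ⟨C₁, hC₁⟩ := hM
  obtain ⟨C₂, hC₂⟩ := hL
  obtain ⟨c, hc, hcy⟩ := hP
  obtain ⟨Y, hY⟩ := eventually_atTop.1 hcy
  set C₃ : ℝ := max (C₁ + Real.log 30 / 2) 0 with hC₃
  have hC₃0 : 0 ≤ C₃ := le_max_right _ _
  -- all the thresholds
  have t0 : Tendsto (fun N : ℕ => (N : ℝ)) atTop atTop := tendsto_natCast_atTop_atTop
  have t1 : Tendsto (fun N : ℕ => Real.log (N : ℝ)) atTop atTop := Real.tendsto_log_atTop.comp t0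
  have t2 : Tendsto (fun N : ℕ => Real.log (Real.log (N : ℝ))) atTop atTop :=
    Real.tendsto_log_atTop.comp t1
  have t3 : Tendsto (fun N : ℕ => √(N : ℝ)) atTop atTop := Real.tendsto_sqrt_atTop.comp t0
  have e1 := t1.eventually_ge_atTop (60 : ℝ)
  have e2 := t1.eventually_ge_atTop (60 * |C₂| + 1)
  have e3 := t2.eventually_ge_atTop (15 * C₃ + 1)
  have e4 := t3.eventually_ge_atTop Y
  have e5 := eventually_ge_atTop (2 : ℕ)
  obtain ⟨N₀, hN₀⟩ := eventually_atTop.1 (e1.and (e2.and (e3.and (e4.and e5))))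
  refine ⟨c * (1 / 2 * Real.exp (-(6 * C₃))), by positivity, N₀, ?_⟩
  intro N hN k hk1 hk
  obtain ⟨f1, f2, f3, f4, f5⟩ := hN₀ N hN
  obtain ⟨j, rfl⟩ : ∃ j, k = j + 1 := ⟨k - 1, by omega⟩
  rw [Nat.add_sub_cancel]
  push_cast at hk
  set L := Real.log (N : ℝ) with hLdef
  set x := Real.log L / 2 with hxdef
  have hL0 : 0 < L := by linarith
  have hx0 : 0 < x := by rw [hxdef]; linarith
  have hN0 : (0 : ℝ) < N := by positivity
  have hNexp : (N : ℝ) = Real.exp L := by rw [hLdef, Real.exp_log hN0]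
  have hsqrt : √(N : ℝ) = Real.exp (L / 2) := by
    rw [hNexp, Real.sqrt_eq_rpow, ← Real.exp_mul]
    congr 1
    ring
  set z := Real.exp (L / 30) with hz
  have hlz : Real.log z = L / 30 := by rw [hz, Real.log_exp]
  have hz3 : 3 ≤ z := by
    rw [hz]
    have := Real.add_one_le_exp (L / 30)
    linarith
  have h1 : x - C₃ ≤ ∑ p ∈ P1 z, (1 : ℝ) / p := by
    refine le_trans ?_ (hC₁ z hz3)
    rw [hlz, Real.log_div hL0.ne' (by norm_num)]
    have : C₁ + Real.log 30 / 2 ≤ C₃ := le_max_left _ _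
    rw [hxdef]
    linarith
  have h2 := hC₂ z (by linarith)
  have h3 : 30 / L * C₂ ≤ 1 / 2 := by
    rw [div_mul_eq_mul_div, div_le_div_iff₀ hL0 (by norm_num)]
    have := le_abs_self C₂
    linarith
  have hj0 : (0 : ℝ) ≤ j := Nat.cast_nonneg j
  have h4 := sum_lower (k := j) hL0 hx0 hz hC₃0 h1 h2 h3 (by rw [hxdef]; linarith)
    (by rw [hxdef]; linarith)
  -- the set
  have hzs : z < √(N : ℝ) / 2 := by
    rw [hsqrt, hz]
    have h5 : Real.exp (L / 2) = Real.exp (L / 30) * Real.exp (7 * L / 15) := by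
      rw [← Real.exp_add]
      congr 1
      ring
    have h6 : 2 < Real.exp (7 * L / 15) := by
      have := Real.add_one_le_exp (7 * L / 15)
      linarith
    have h7 : 0 < Real.exp (L / 30) := Real.exp_pos _
    rw [h5]
    nlinarith
  obtain ⟨M, hM1, hM2, hM3⟩ := build_sqf (k := j) hc.le f5 hzs (fun y hy => hY y (le_trans f4 hy))
  refine ⟨M, hM1, hM2, le_trans ?_ hM3⟩
  rw [hsqrt]
  have h8 : 0 ≤ c * ((N : ℝ) / L) := by positivity
  calc c * (1 / 2 * Real.exp (-(6 * C₃))) * ((N : ℝ) / L) * (x ^ j / j.factorial) =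
      c * ((N : ℝ) / L) * (1 / 2 * (Real.exp (-(6 * C₃)) * x ^ j) / j.factorial) := by ring
    _ ≤ _ := mul_le_mul_of_nonneg_left h4 h8

/-- C: the threshold set -/
theorem count_sqf : ∃ c : ℝ, 0 < c ∧ ∃ V₀ : ℝ, ∀ V : ℝ, V₀ ≤ V →
    ∃ M : Finset ℕ, M ⊆ Finset.Icc 1 ⌊V ^ 2⌋₊ ∧ (∀ K ∈ M, Squarefree K) ∧
      (∀ K ∈ M, V ^ (-(3 / 4) : ℝ) ≤ gr K * (K : ℝ) ^ (-(3 / 4) : ℝ)) ∧
      c * V * (Real.log V) ^ (kap - 1) ≤ M.card := by
  classical
  obtain ⟨c, hc, N₀, hN⟩ := count_k_sqf mertens4 mertens_log primes_half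
  have t1 : Tendsto Real.log atTop atTop := Real.tendsto_log_atTop
  have t2 : Tendsto (fun V : ℝ => Real.log (Real.log V)) atTop atTop := t1.comp t1
  have e1 := eventually_ge_atTop (max (N₀ : ℝ) 3)
  have e2 := t2.eventually_ge_atTop (10000 : ℝ)
  obtain ⟨V₀, hV₀⟩ := eventually_atTop.1 (e1.and e2)
  refine ⟨c / 96, by positivity, V₀, ?_⟩
  intro V hV
  obtain ⟨f1, f2⟩ := hV₀ V hV
  have hVN : (N₀ : ℝ) ≤ V := (le_max_left _ _).trans f1
  have hV3 : (3 : ℝ) ≤ V := (le_max_right _ _).trans f1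
  have hV0 : 0 < V := by linarith
  have hk0 := kap_pos
  have hk1 := kap_le'
  have hk2 := kap_ge
  set u := Real.log (Real.log V) with hu
  set lam : ℝ := kap * u with hlam
  have hlam4 : 12500 ≤ lam := by rw [hlam]; nlinarith
  have hlV : 0 < Real.log V := Real.log_pos (by linarith)
  have hexpu : Real.exp u = Real.log V := by rw [hu, Real.exp_log hlV]
  have hlogV : 2 * u ≤ Real.log V := by
    rw [← hexpu]
    have h := Real.quadratic_le_exp_of_nonneg (show 0 ≤ u by linarith)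
    nlinarith
  have hslam : √lam ≤ lam / 100 := by
    rw [Real.sqrt_le_left (by positivity)]
    nlinarith
  have hVexp : V = Real.exp (Real.log V) := (Real.exp_log hV0).symm
  -- the levels
  set Vj : ℕ → ℝ := fun j => V * (2 : ℝ) ^ (4 / 3 * ((j : ℝ) + 1)) with hVj
  set Nj : ℕ → ℕ := fun j => ⌊Vj j⌋₊ with hNj
  have hp1 : ∀ j : ℕ, 2 ≤ (2 : ℝ) ^ (4 / 3 * ((j : ℝ) + 1)) := by
    intro j
    calc (2 : ℝ) = (2 : ℝ) ^ (1 : ℝ) := (Real.rpow_one 2).symm
      _ ≤ _ := by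
        apply Real.rpow_le_rpow_of_exponent_le (by norm_num)
        have : (0 : ℝ) ≤ j := Nat.cast_nonneg j
        linarith
  have hVjpos : ∀ j, 0 < Vj j := fun j => by
    have := hp1 j
    simp only [hVj]
    positivity
  have hVj2 : ∀ j, 2 * V ≤ Vj j := fun j => by
    have := hp1 j
    simp only [hVj]
    nlinarith
  have hNj1 : ∀ j, (Nj j : ℝ) ≤ Vj j := fun j => Nat.floor_le (hVjpos j).le
  have hNj2 : ∀ j, Vj j / 2 ≤ Nj j := fun j => by
    have h1 := Nat.lt_floor_add_one (Vj j)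
    have h2 := hVj2 j
    have h3 : Vj j < (Nj j : ℝ) + 1 := h1
    linarith
  have hNj3 : ∀ j, V ≤ Nj j := fun j => by
    have := hNj2 j
    have := hVj2 j
    linarith
  -- upper bound for the levels
  have hwin : ∀ j ∈ win lam, (j : ℝ) + 1 ≤ 13 / 10 * u := by
    intro j hj
    rw [mem_win (by linarith)] at hj
    have : lam ≤ 63 / 50 * u := by rw [hlam]; nlinarith
    linarith [hj.2]
  have hVjup : ∀ j ∈ win lam, Real.log (Vj j) ≤ 2 * Real.log V := by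
    intro j hj
    have h1 := hwin j hj
    simp only [hVj]
    rw [Real.log_mul hV0.ne' (by positivity), Real.log_rpow (by norm_num)]
    have h2 := Real.log_two_lt_d9
    have h3 : 0 < Real.log 2 := Real.log_pos (by norm_num)
    have h4 : 4 / 3 * ((j : ℝ) + 1) * Real.log 2 ≤ (j + 1) := by
      have : (0 : ℝ) ≤ (j : ℝ) + 1 := by positivity
      nlinarith
    linarith
  have key : ∀ j ∈ win lam, ∃ M : Finset ℕ, M ⊆ Finset.Icc 1 (Nj j) ∧
      (∀ m ∈ M, 2 ^ (j + 1) ≤ gr m ∧ m.primeFactors.card = j + 1 ∧ Squarefree m) ∧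
      c / 4 * (V / Real.log V) * (lam ^ j / j.factorial) ≤ M.card := by
    intro j hj
    have hNjN : N₀ ≤ Nj j := by exact_mod_cast hVN.trans (hNj3 j)
    have hNjpos : (0 : ℝ) < Nj j := lt_of_lt_of_le hV0 (hNj3 j)
    have hlN : Real.log V ≤ Real.log (Nj j) := Real.log_le_log hV0 (hNj3 j)
    have hllN : u ≤ Real.log (Real.log (Nj j)) := Real.log_le_log hlV hlN
    have hlN2 : Real.log (Nj j) ≤ 2 * Real.log V :=
      (Real.log_le_log hNjpos (hNj1 j)).trans (hVjup j hj)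
    obtain ⟨M, hM1, hM2, hM3⟩ := hN (Nj j) hNjN (j + 1) (by omega) (by
      push_cast
      have := hwin j hj
      linarith)
    refine ⟨M, hM1, hM2, le_trans ?_ hM3⟩
    rw [Nat.add_sub_cancel]
    have h5 : (u / 2) ^ j / j.factorial ≤ (Real.log (Real.log (Nj j)) / 2) ^ j / j.factorial := by
      have : (0 : ℝ) ≤ u / 2 := by linarith
      gcongr
    have h6 : V * (2 : ℝ) ^ (4 / 3 * ((j : ℝ) + 1)) / 2 / (2 * Real.log V) ≤ Nj j / Real.log (Nj j) := by
      have h7 := hNj2 j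
      apply div_le_div₀ hNjpos.le h7 (by linarith) hlN2
    have h8 : (2 : ℝ) ^ (4 / 3 * ((j : ℝ) + 1)) = (2 * kap) * (2 * kap) ^ j := by
      rw [mul_comm (4 / 3 : ℝ), Real.rpow_mul (by norm_num), ← Real.rpow_natCast, ← two_rpow_four_thirds,
        ← Real.rpow_mul (by norm_num), ← Real.rpow_mul (by norm_num), ← Real.rpow_add (by norm_num)]
      congr 1
      ring
    have h9 : c / 4 * (V / Real.log V) * (lam ^ j / j.factorial) ≤
        c * (V * (2 : ℝ) ^ (4 / 3 * ((j : ℝ) + 1)) / 2 / (2 * Real.log V)) *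
          ((u / 2) ^ j / j.factorial) := by
      rw [h8]
      have h10 : c * (V * (2 * kap * (2 * kap) ^ j) / 2 / (2 * Real.log V)) * ((u / 2) ^ j / j.factorial)
          = 2 * kap * (c / 4 * (V / Real.log V) * (lam ^ j / j.factorial)) := by
        have h11 : lam ^ j = (2 * kap) ^ j * (u / 2) ^ j := by
          rw [← mul_pow, hlam]
          congr 1
          ring
        rw [h11]
        field_simp
        norm_num
      rw [h10]
      have h12 : 0 ≤ c / 4 * (V / Real.log V) * (lam ^ j / j.factorial) := by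
        have : (0 : ℝ) ≤ lam := by linarith
        positivity
      nlinarith
    refine h9.trans ?_
    apply mul_le_mul (mul_le_mul_of_nonneg_left h6 hc.le) h5
    · have : (0 : ℝ) ≤ u / 2 := by linarith
      positivity
    · have : 0 ≤ Real.log (Nj j : ℝ) := by linarith
      positivity
  choose! Mj hMj1 hMj2 hMj3 using key
  have hdisj : Set.PairwiseDisjoint (↑(win lam)) Mj := by
    intro i hi j hj hij
    rw [Function.onFun, Finset.disjoint_left]
    intro m hmi hmj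
    have h1 := (hMj2 i hi m hmi).2.1
    have h2 := (hMj2 j hj m hmj).2.1
    omega
  refine ⟨(win lam).biUnion Mj, ?_, ?_, ?_, ?_⟩
  · intro K hK
    rw [Finset.mem_biUnion] at hK
    obtain ⟨j, hj, hK⟩ := hK
    have h1 := Finset.mem_Icc.mp (hMj1 j hj hK)
    rw [Finset.mem_Icc]
    refine ⟨h1.1, Nat.le_floor ?_⟩
    have h2 : (K : ℝ) ≤ Nj j := by exact_mod_cast h1.2
    refine h2.trans ((hNj1 j).trans ?_)
    have h3 := hVjup j hj
    calc Vj j = Real.exp (Real.log (Vj j)) := (Real.exp_log (hVjpos j)).symm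
      _ ≤ Real.exp (2 * Real.log V) := Real.exp_le_exp.mpr h3
      _ = V ^ 2 := by
        rw [show (2 : ℝ) * Real.log V = ((2 : ℕ) : ℝ) * Real.log V by norm_num, ← Real.log_pow,
          Real.exp_log (by positivity)]
  · intro K hK
    rw [Finset.mem_biUnion] at hK
    obtain ⟨j, hj, hK⟩ := hK
    exact (hMj2 j hj K hK).2.2
  · intro K hK
    rw [Finset.mem_biUnion] at hK
    obtain ⟨j, hj, hK⟩ := hK
    have h1 := Finset.mem_Icc.mp (hMj1 j hj hK)
    have hK0 : (0 : ℝ) < K := by exact_mod_cast h1.1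
    have h2 : (K : ℝ) ≤ Vj j := by
      have : (K : ℝ) ≤ Nj j := by exact_mod_cast h1.2
      exact this.trans (hNj1 j)
    have h3 : (2 : ℝ) ^ (j + 1) ≤ gr K := by exact_mod_cast (hMj2 j hj K hK).1
    have h4 : (Vj j) ^ (-(3 / 4) : ℝ) ≤ (K : ℝ) ^ (-(3 / 4) : ℝ) :=
      Real.rpow_le_rpow_of_nonpos hK0 h2 (by norm_num)
    have h5 : V ^ (-(3 / 4) : ℝ) = (2 : ℝ) ^ (j + 1) * (Vj j) ^ (-(3 / 4) : ℝ) := by
      simp only [hVj]
      rw [Real.mul_rpow hV0.le (by positivity), ← Real.rpow_mul (by norm_num), ← Real.rpow_natCast]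
      have h6 : (2 : ℝ) ^ ((j + 1 : ℕ) : ℝ) * (V ^ (-(3 / 4) : ℝ) * (2 : ℝ) ^ (4 / 3 * ((j : ℝ) + 1) * -(3 / 4)))
          = V ^ (-(3 / 4) : ℝ) * ((2 : ℝ) ^ ((j + 1 : ℕ) : ℝ) * (2 : ℝ) ^ (4 / 3 * ((j : ℝ) + 1) * -(3 / 4))) := by
        ring
      rw [h6, ← Real.rpow_add (by norm_num)]
      push_cast
      have h7 : (j : ℝ) + 1 + 4 / 3 * ((j : ℝ) + 1) * -(3 / 4) = 0 := by ring
      rw [h7, Real.rpow_zero, mul_one]
    rw [h5]
    exact mul_le_mul h3 h4 (Real.rpow_nonneg (hVjpos j).le _) (Nat.cast_nonneg _)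
  · rw [Finset.card_biUnion hdisj]
    push_cast
    have h1 : ∑ j ∈ win lam, c / 4 * (V / Real.log V) * (lam ^ j / j.factorial)
        ≤ ∑ j ∈ win lam, ((Mj j).card : ℝ) := Finset.sum_le_sum fun j hj => hMj3 j hj
    refine le_trans ?_ h1
    rw [← Finset.mul_sum]
    have h2 := poisson_sum (lam := lam) (by linarith)
    have h3 : Real.exp lam = (Real.log V) ^ kap := by
      rw [Real.rpow_def_of_pos hlV, hlam, hu, mul_comm]
    have h4 : c / 4 * (V / Real.log V) * (Real.exp lam / 24) ≤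
        c / 4 * (V / Real.log V) * ∑ j ∈ win lam, lam ^ j / j.factorial :=
      mul_le_mul_of_nonneg_left h2 (by positivity)
    refine le_trans (le_of_eq ?_) h4
    rw [h3, Real.rpow_sub_one hlV.ne']
    field_simp
    norm_num

end

end Pool.Agent.Helper60.GP
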