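import Mathlib
import Pool.Agent.Helper60.GP.Defs

/-!
# GP-UP: upper bound for the smoothed Hardy series, and large positive values
-/

open Filter MeasureTheory Set
open scoped Real

namespace Pool.Agent.Helper60.GP

open Pool.Agent.Helper22.GC Pool.Agent.Helper53.OM Pool.Agent.Helper22.RZ

noncomputable section

/-- Block Upper -/
theorem gI_upper : ∃ C : ℝ, 0 < C ∧ ∀ (δ β X Y : ℝ), 0 < δ → δ ≤ 1 / 2 → 2 ≤ X → δ * Y ≤ 1 →
    0 ≤ β → (∀ R, X ≤ R → R ≤ Y → Pe R ≤ β * √R) →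
    ∀ R, X ≤ R → R + 1 ≤ Y → gI δ R ≤ 2 * β + C := by
  obtain ⟨C, hC, h⟩ := gI_approx
  refine ⟨C + 17, by linarith, ?_⟩
  intro δ β X Y hδ hδ' hX hδY hβ hP R hR hRY
  have hR0 : 0 < R := by linarith
  have hsR : 0 < √R := Real.sqrt_pos.mpr hR0
  have hsR1 : 1 ≤ √R := by rw [Real.one_le_sqrt]; linarith
  have hsq : √R * √R = R := Real.mul_self_sqrt hR0.le
  have h1 := hP (R + 2 * δ) (by linarith) (by linarith)
  have h2 := Sm_le_F (R := R + 2 * δ) (by linarith) hδ hδ'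
  rw [add_sub_cancel_right] at h2
  have h3 := abs_le.mp (h δ R hδ hδ' hR0)
  rw [Pe] at h1
  have hπ := Real.pi_pos
  have h4 : √R * gI δ R ≤ β * √(R + 2 * δ) + 4 * π * δ * R + 4 * π * δ ^ 2 + C / √R := by
    have : π * (R + 2 * δ) ^ 2 = π * R ^ 2 + 4 * π * δ * R + 4 * π * δ ^ 2 := by ring
    linarith [h3.1, h3.2]
  have h5 : C / √R ≤ C * √R := by
    rw [div_le_iff₀ hsR]
    nlinarith
  have hp4 : 4 * π ≤ 13 := by linarith [Real.pi_lt_d2]
  have h6 : 4 * π * δ * R ≤ 13 * √R := by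
    have h7 : δ * R ≤ 1 := by nlinarith
    calc 4 * π * δ * R = 4 * π * (δ * R) := by ring
      _ ≤ 13 * 1 := mul_le_mul hp4 h7 (by positivity) (by norm_num)
      _ ≤ 13 * √R := by linarith
  have h6' : 4 * π * δ ^ 2 ≤ 4 * √R := by
    have h7 : δ ^ 2 ≤ 1 / 4 := by nlinarith
    calc 4 * π * δ ^ 2 ≤ 13 * (1 / 4) := mul_le_mul hp4 h7 (by positivity) (by norm_num)
      _ ≤ 4 * √R := by linarith
  have h7 : β * √(R + 2 * δ) ≤ 2 * β * √R := by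
    have h8 : √(R + 2 * δ) ≤ 2 * √R := by
      apply Real.sqrt_le_iff.mpr
      refine ⟨by positivity, ?_⟩
      rw [mul_pow, sq (√R), hsq]
      linarith
    calc β * √(R + 2 * δ) ≤ β * (2 * √R) := mul_le_mul_of_nonneg_left h8 hβ
      _ = _ := by ring
  have h8 : √R * gI δ R ≤ √R * (2 * β + (C + 17)) := by
    calc √R * gI δ R ≤ β * √(R + 2 * δ) + 4 * π * δ * R + 4 * π * δ ^ 2 + C / √R := h4
      _ ≤ 2 * β * √R + 13 * √R + 4 * √R + C * √R := by linarith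
      _ = _ := by ring
  exact le_of_mul_le_mul_left h8 hsR

/-- Block Big -/
theorem exists_big (B : ℝ) : ∃ M₀ : ℝ, ∀ M : ℝ, M₀ ≤ M → ∃ R : ℝ, M ≤ R ∧ R ≤ 4 * M ∧
    B * √R < Pe R := by
  obtain ⟨c, hc, h⟩ := omega_main 1 0 one_pos (σ := 1) (Or.inl rfl) B
  obtain ⟨m₀, hm₀⟩ := eventually_atTop.1 h
  refine ⟨max (m₀ : ℝ) 1, fun M hM => ?_⟩
  have hM1 : (m₀ : ℝ) ≤ M := (le_max_left _ _).trans hM
  have hM2 : (1 : ℝ) ≤ M := (le_max_right _ _).trans hM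
  set m : ℕ := ⌈M⌉₊ with hm
  have hmM : M ≤ m := Nat.le_ceil M
  have hmM' : (m : ℝ) < M + 1 := Nat.ceil_lt_add_one (by linarith)
  have hmm : m₀ ≤ m := by exact_mod_cast hM1.trans hmM
  have h1 := hm₀ m hmm
  have hpos : 0 < c * (m : ℝ) := mul_pos hc (by linarith)
  have hcard : 0 < ((Finset.Ioc m (2 * m)).filter (fun n => B < (1 : ℝ) * uu 1 0 n)).card := by
    have : (0 : ℝ) < (((Finset.Ioc m (2 * m)).filter (fun n => B < (1 : ℝ) * uu 1 0 n)).card : ℝ) :=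
      lt_of_lt_of_le hpos h1
    exact_mod_cast this
  obtain ⟨n, hn⟩ := Finset.card_pos.mp hcard
  rw [Finset.mem_filter, Finset.mem_Ioc] at hn
  obtain ⟨⟨hn1, hn2⟩, hn3⟩ := hn
  have hn1' : (m : ℝ) < n := by exact_mod_cast hn1
  have hn2' : (n : ℝ) ≤ 2 * m := by exact_mod_cast hn2
  refine ⟨n, by linarith, by linarith, ?_⟩
  have hn0 : (0 : ℝ) < n := by linarith
  rw [uu] at hn3
  simp only [one_mul, add_zero] at hn3
  rwa [lt_div_iff₀ (Real.sqrt_pos.mpr hn0)] at hn3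

end

end Pool.Agent.Helper60.GP
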